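import Pool.Agent.Lib.FSB.Trans
import Pool.Agent.Lib.FSB.TransH

/-!
# A distinguished involution `d` such that `B_d` is not a Frobenius algebra object

The conjecture of Klein and Elias-Hogancamp (for every distinguished involution `d` the
indecomposable Soergel bimodule `B_d` carries the structure of a Frobenius algebra object in `SBim`)
is false.  The counterexample is `d = s t s u t s` in the Coxeter group of type `B₃`
(`m(s,t) = 4`, `m(t,u) = 3`, `m(s,u) = 2`), with its reflection representation over an arbitrary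
field `K` of characteristic `0`: `R = K[x₀,x₁,x₂]`, `s : x₀ ↦ -x₀`, `t : x₀ ↔ x₁`, `u : x₁ ↔ x₂`.
-/

set_option autoImplicit false

open LaurentPolynomial

namespace Pool.Agent.Results.MP_3c30f2_al.FrobeniusB3

open Pool.Agent.Lib.FSB.St

/-- Let `(W,S)` be the Coxeter system of type `B₃`, `S = {s,t,u}` numbered by `0,1,2`, and let `K`
be a field of characteristic `0`.
* `s ↦ refl K 0`, `t ↦ refl K 1`, `u ↦ refl K 2` is a faithful representation of `W` on `R`;
* `s t s u t s` is a reduced expression of an element `d` of `W`;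
* the Hecke algebra of `(W,S)`, its bar involution and its Kazhdan-Lusztig basis exist, and for
  all such data `a(d) = 2 = Δ(d)`, that is `d` is a distinguished involution;
* the Bott-Samelson bimodule `BS(s,t,s,u,t,s)` exists, and it has an indecomposable graded direct
  summand `B_d` containing `1 ⊗ ⋯ ⊗ 1`;
* no such summand carries the structure of a Frobenius algebra object in the category of
  `(R,R)`-bimodules. -/
theorem result (W : Type) [Group W] (cs : CoxeterSystem cmB3 W)
    (K : Type) [Field K] [CharZero K] :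
    (∃ φ : W →* (MvPolynomial (Fin 3) K →ₐ[K] MvPolynomial (Fin 3) K),
      Function.Injective φ ∧ ∀ i, φ (cs.simple i) = refl K i) ∧
    cs.IsReduced [0, 1, 0, 2, 1, 0] ∧
    (∃ (H : Type) (_ : Ring H) (_ : Algebra ℤ[T;T⁻¹] H) (h : Module.Basis W ℤ[T;T⁻¹] H)
      (bar : H →+* H) (c : Module.Basis W ℤ[T;T⁻¹] H), IsKL cs h bar c) ∧
    (∀ (H : Type) [Ring H] [Algebra ℤ[T;T⁻¹] H] (h : Module.Basis W ℤ[T;T⁻¹] H)
      (bar : H →+* H) (c : Module.Basis W ℤ[T;T⁻¹] H), IsKL cs h bar c →
      aFun c (cs.wordProd [0, 1, 0, 2, 1, 0]) = 2 ∧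
      DeltaFun h c (cs.wordProd [0, 1, 0, 2, 1, 0]) = 2) ∧
    (∃ (A : Type) (_ : CommRing A) (π : MvPolynomial (Fin 7 × Fin 3) K →+* A),
      IsBS ![0, 1, 0, 2, 1, 0] π) ∧
    ∀ (A : Type) [CommRing A] (π : MvPolynomial (Fin 7 × Fin 3) K →+* A),
      IsBS ![0, 1, 0, 2, 1, 0] π →
      (∃ (B : Type) (_ : AddCommGroup B) (_ : Module (MvPolynomial (Fin 3) K) B)
        (right : MvPolynomial (Fin 3) K → B → B) (i : B →+ A) (p : A →+ B),
        IsTop π right i p) ∧
      ∀ (B : Type) [AddCommGroup B] [Module (MvPolynomial (Fin 3) K) B]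
        (right : MvPolynomial (Fin 3) K → B → B) (i : B →+ A) (p : A →+ B),
        IsTop π right i p → IsEmpty (Frob right) := by
  refine ⟨Pool.Agent.Lib.FSB.faithful_st K cs, Pool.Agent.Lib.FSB.reduced_d cs,
    Pool.Agent.Lib.FSB.exists_st cs, ?_, Pool.Agent.Lib.FSB.exists_isBS K _, ?_⟩
  · intro H _ _ h bar c hk
    exact Pool.Agent.Lib.FSB.hecke_st hk
  · intro A _ π hπ
    obtain ⟨T, D⟩ := Pool.Agent.Lib.FSB.exists_isoD π hπ
    refine ⟨Pool.Agent.Lib.FSB.exists_isTop D, ?_⟩
    intro B _ _ right i p h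
    exact Pool.Agent.Lib.FSB.no_frob_isTop D h

end Pool.Agent.Results.MP_3c30f2_al.FrobeniusB3
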